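import Pool.Agent.R410.LW.Main

/-!
# The theorem of Landau, Lang and Weil for finite covers of the affine space
-/

set_option autoImplicit false

open Polynomial NumberField

namespace Pool.Agent.K3h55.HP

open Pool.Agent.R410.LW

/-- the field of fractions of a ring of finite type over the integers is finitely generated -/
theorem fg_of_ft {B M : Type} [CommRing B] [IsDomain B] [Algebra.FiniteType ℤ B] [Field M]
    [Algebra B M] [IsFractionRing B M] : FG M := by
  classical
  obtain ⟨S, hS⟩ := (Algebra.FiniteType.out : (⊤ : Subalgebra ℤ B).FG)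
  refine ⟨S.image (algebraMap B M), ?_⟩
  rw [eq_top_iff]
  intro z _
  have hB : ∀ b : B, algebraMap B M b ∈
      Subfield.closure ((S.image (algebraMap B M) : Finset M) : Set M) := by
    intro b
    have hb : b ∈ Algebra.adjoin ℤ (S : Set B) := by
      rw [hS]
      trivial
    induction hb using Algebra.adjoin_induction with
    | mem s hs =>
      apply Subfield.subset_closure
      rw [Finset.coe_image]
      exact ⟨s, hs, rfl⟩
    | algebraMap c =>
      rw [eq_intCast, map_intCast]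
      exact intCast_mem _ c
    | add x y _ _ h1 h2 =>
      rw [map_add]
      exact add_mem h1 h2
    | mul x y _ _ h1 h2 =>
      rw [map_mul]
      exact mul_mem h1 h2
  obtain ⟨a, b, -, rfl⟩ := IsFractionRing.div_surjective (A := B) z
  exact div_mem (hB a) (hB b)

/-- the characteristic -/
theorem charZero_frac {n : ℕ} {B : Type} [CommRing B] [IsDomain B]
    [Algebra (MvPolynomial (Fin n) ℤ) B]
    (hinj : Function.Injective (algebraMap (MvPolynomial (Fin n) ℤ) B)) :
    CharZero (FractionRing B) := by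
  have h1 : CharZero B := charZero_of_injective_algebraMap hinj
  exact charZero_of_injective_algebraMap (IsFractionRing.injective B (FractionRing B))

/-- the transcendence degree -/
theorem trdeg_frac {n : ℕ} {B M : Type} [CommRing B] [IsDomain B]
    [Algebra (MvPolynomial (Fin n) ℤ) B]
    (hinj : Function.Injective (algebraMap (MvPolynomial (Fin n) ℤ) B))
    [Algebra.IsIntegral (MvPolynomial (Fin n) ℤ) B] [Field M] [CharZero M] [Algebra B M]
    [IsFractionRing B M] : Algebra.trdeg ℚ M = n := by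
  let _ : Algebra (MvPolynomial (Fin n) ℤ) M :=
    ((algebraMap B M).comp (algebraMap (MvPolynomial (Fin n) ℤ) B)).toAlgebra
  have ht : IsScalarTower (MvPolynomial (Fin n) ℤ) B M :=
    IsScalarTower.of_algebraMap_eq fun _ => rfl
  have hf : FaithfulSMul (MvPolynomial (Fin n) ℤ) M :=
    (faithfulSMul_iff_algebraMap_injective (MvPolynomial (Fin n) ℤ) M).2
      ((IsFractionRing.injective B M).comp hinj)
  have hf2 : FaithfulSMul ℤ (MvPolynomial (Fin n) ℤ) :=
    (faithfulSMul_iff_algebraMap_injective _ _).2 (algebraMap ℤ (MvPolynomial (Fin n) ℤ)).injective_int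
  have hf3 : FaithfulSMul ℚ M :=
    (faithfulSMul_iff_algebraMap_injective _ _).2 (algebraMap ℚ M).injective
  have ha1 : Algebra.IsAlgebraic B M := IsLocalization.isAlgebraic M (nonZeroDivisors B)
  have ha : Algebra.IsAlgebraic (MvPolynomial (Fin n) ℤ) M :=
    Algebra.IsAlgebraic.trans (MvPolynomial (Fin n) ℤ) B M
  have hq : Algebra.IsAlgebraic ℤ ℚ := IsLocalization.isAlgebraic ℚ (nonZeroDivisors ℤ)
  have e1 := trdeg_add_eq ℤ (MvPolynomial (Fin n) ℤ) (A := M)
  have e2 := trdeg_add_eq ℤ ℚ (A := M)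
  rw [trdeg_eq_zero (R := MvPolynomial (Fin n) ℤ) (A := M), add_zero,
    MvPolynomial.trdeg_of_isDomain] at e1
  rw [trdeg_eq_zero (R := ℤ) (A := ℚ), zero_add] at e2
  rw [e2, ← e1]
  simp

/-- **The number of the points modulo `p` of a finite cover of the affine space** -/
theorem landau_int {n : ℕ} {B : Type} [CommRing B] [IsDomain B]
    [Algebra (MvPolynomial (Fin n) ℤ) B]
    (hinj : Function.Injective (algebraMap (MvPolynomial (Fin n) ℤ) B))
    [Algebra.IsIntegral (MvPolynomial (Fin n) ℤ) B] [Algebra.FiniteType ℤ B] :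
    ∃ (L : Type) (_ : Field L) (_ : NumberField L), ∀ s : B, s ≠ 0 →
      ∃ t : MvPolynomial (Fin n) ℤ, t ≠ 0 ∧ s ∣ algebraMap (MvPolynomial (Fin n) ℤ) B t ∧
        ∃ C : ℝ, ∀ p : ℕ, p.Prime → C < p →
          |(Nat.card {φ : B →+* ZMod p // φ (algebraMap (MvPolynomial (Fin n) ℤ) B t) ≠ 0} : ℝ) -
            Nat.card (𝓞 L →+* ZMod p) * (p : ℝ) ^ n| * √(p : ℝ) ≤ C * (p : ℝ) ^ n := by
  have hc := charZero_frac hinj
  obtain ⟨L, iL, nL, h⟩ := landau n (FractionRing B) (fg_of_ft (B := B)) (trdeg_frac (B := B) hinj)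
  refine ⟨L, iL, nL, fun s hs => ?_⟩
  obtain ⟨s₀, hs₀, h1⟩ := h B
  obtain ⟨t, ht, hd⟩ := (Algebra.IsAlgebraic.isAlgebraic (R := MvPolynomial (Fin n) ℤ)
    (s * s₀)).exists_nonzero_dvd (mem_nonZeroDivisors_of_ne_zero (mul_ne_zero hs hs₀))
  refine ⟨t, ht, (Dvd.intro _ rfl).trans hd, ?_⟩
  obtain ⟨C, N, hC, hN, h2⟩ := h1 (algebraMap (MvPolynomial (Fin n) ℤ) B t)
    ((map_ne_zero_iff _ hinj).2 ht) ((Dvd.intro_left _ rfl).trans hd)
  refine ⟨max C N, fun p hp hCp => ?_⟩
  have : Fact p.Prime := ⟨hp⟩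
  have hNp : ((N : ℕ) : ZMod p) ≠ 0 := by
    rw [ne_eq, ZMod.natCast_eq_zero_iff]
    intro hd
    have h3 := Nat.le_of_dvd (Nat.pos_of_ne_zero hN) hd
    have h4 : (N : ℝ) < p := (le_max_right _ _).trans_lt hCp
    have h5 : N < p := by exact_mod_cast h4
    omega
  have h3 := h2 (ZMod p) hNp
  rw [Nat.card_zmod] at h3
  refine h3.trans ?_
  exact mul_le_mul_of_nonneg_right (le_max_left _ _) (by positivity)

end Pool.Agent.K3h55.HP
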