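import Pool.Agent.K3h34.HP.Stm
import Pool.Agent.K3h55.HP.Aux1

/-!
# Brick OBS1: the number of the points modulo `p` of the cover `P(x, w) = 0`
-/

set_option autoImplicit false

open Polynomial NumberField

namespace Pool.Agent.K3h34.HP

open Pool.Agent.Y214.HB (toK)

/-- the ring of a cover is a domain -/
theorem dom_adj {R F : Type} [CommRing R] [IsDomain R] [Field F] {ι : R →+* F}
    (hι : Function.Injective ι) {P : R[X]} (hP : P.Monic) (hirr : Irreducible (P.map ι)) :
    IsDomain (AdjoinRoot P) := by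
  have : Fact (Irreducible (P.map ι)) := ⟨hirr⟩
  have h0 : P.eval₂ ((AdjoinRoot.of (P.map ι)).comp ι) (AdjoinRoot.root (P.map ι)) = 0 := by
    rw [← eval₂_map]
    exact AdjoinRoot.eval₂_root _
  let g : AdjoinRoot P →+* AdjoinRoot (P.map ι) := AdjoinRoot.lift _ _ h0
  have hg : ∀ f : R[X], g (AdjoinRoot.mk P f) = AdjoinRoot.mk (P.map ι) (f.map ι) := by
    intro f
    show AdjoinRoot.lift _ _ h0 (AdjoinRoot.mk P f) = _
    rw [AdjoinRoot.lift_mk, ← eval₂_map]
    exact AdjoinRoot.aeval_eq _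
  have hinj : Function.Injective g := by
    rw [injective_iff_map_eq_zero]
    intro b hb
    obtain ⟨f, rfl⟩ := AdjoinRoot.mk_surjective b
    rw [hg, AdjoinRoot.mk_eq_zero] at hb
    rw [AdjoinRoot.mk_eq_zero]
    exact (Polynomial.map_dvd_map ι hι hP).1 hb
  exact hinj.isDomain g

/-- evaluation is determined by the images of the variables -/
theorem evP_eq {n p : ℕ} (g : MvPolynomial (Fin (n + 1)) ℤ →+* ZMod p) :
    evP p (fun i => g (MvPolynomial.X i)) = g := by
  apply MvPolynomial.ringHom_ext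
  · intro c
    rw [evP, MvPolynomial.coe_eval₂Hom, MvPolynomial.eval₂_C, eq_intCast, eq_intCast, map_intCast]
  · intro i
    rw [evP, MvPolynomial.coe_eval₂Hom, MvPolynomial.eval₂_X]

theorem evP_X {n p : ℕ} (a : Fin (n + 1) → ZMod p) (i : Fin (n + 1)) :
    evP p a (MvPolynomial.X i) = a i := by
  rw [evP, MvPolynomial.coe_eval₂Hom, MvPolynomial.eval₂_X]

/-- the points of the cover -/
noncomputable def ptsEquiv {n : ℕ} (P : (MvPolynomial (Fin (n + 1)) ℤ)[X])
    (t : MvPolynomial (Fin (n + 1)) ℤ) (p : ℕ) :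
    {φ : AdjoinRoot P →+* ZMod p // φ (AdjoinRoot.of P t) ≠ 0} ≃ Pts P t p where
  toFun φ := ⟨(fun i => φ.1 (AdjoinRoot.of P (MvPolynomial.X i)), φ.1 (AdjoinRoot.root P)), by
    have h : evP p (fun i => φ.1 (AdjoinRoot.of P (MvPolynomial.X i))) =
        φ.1.comp (AdjoinRoot.of P) := evP_eq (φ.1.comp (AdjoinRoot.of P))
    refine ⟨?_, ?_⟩
    · show evP p (fun i => φ.1 (AdjoinRoot.of P (MvPolynomial.X i))) t ≠ 0
      rw [h]
      exact φ.2
    · show (P.map (evP p (fun i => φ.1 (AdjoinRoot.of P (MvPolynomial.X i))))).eval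
        (φ.1 (AdjoinRoot.root P)) = 0
      rw [h, eval_map, ← hom_eval₂, AdjoinRoot.eval₂_root, map_zero]⟩
  invFun z := ⟨AdjoinRoot.lift (evP p z.1.1) z.1.2 (by
      have h := z.2.2
      rwa [eval_map] at h), by
    rw [AdjoinRoot.lift_of]
    exact z.2.1⟩
  left_inv φ := by
    apply Subtype.ext
    refine RingHom.ext fun b => ?_
    obtain ⟨f, rfl⟩ := AdjoinRoot.mk_surjective b
    have h : evP p (fun i => φ.1 (AdjoinRoot.of P (MvPolynomial.X i))) =
        φ.1.comp (AdjoinRoot.of P) := evP_eq (φ.1.comp (AdjoinRoot.of P))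
    have hz : P.eval₂ (evP p (fun i => φ.1 (AdjoinRoot.of P (MvPolynomial.X i))))
        (φ.1 (AdjoinRoot.root P)) = 0 := by
      rw [h, ← hom_eval₂, AdjoinRoot.eval₂_root, map_zero]
    refine (AdjoinRoot.lift_mk hz f).trans ?_
    rw [h, ← hom_eval₂]
    congr 1
    exact AdjoinRoot.aeval_eq _
  right_inv z := by
    apply Subtype.ext
    have hz : P.eval₂ (evP p z.1.1) z.1.2 = 0 := by
      have h := z.2.2
      rwa [eval_map] at h
    refine Prod.ext ?_ ?_
    · funext i
      exact (AdjoinRoot.lift_of (x := MvPolynomial.X i) hz).trans (evP_X _ _)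
    · exact AdjoinRoot.lift_root hz

/-- OBS1 -/
theorem t_OBS1 : S_OBS1 := by
  intro n P hP hdeg hirr
  have hD : IsDomain (AdjoinRoot P) :=
    dom_adj (IsFractionRing.injective (MvPolynomial (Fin (n + 1)) ℤ)
      (FractionRing (MvPolynomial (Fin (n + 1)) ℤ))) hP hirr
  have hinj : Function.Injective (algebraMap (MvPolynomial (Fin (n + 1)) ℤ) (AdjoinRoot P)) := by
    apply AdjoinRoot.of.injective_of_degree_ne_zero
    intro h
    have h1 := natDegree_eq_of_degree_eq_some (n := 0) h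
    omega
  have hfin : Module.Finite (MvPolynomial (Fin (n + 1)) ℤ) (AdjoinRoot P) := hP.finite_adjoinRoot
  have hint : Algebra.IsIntegral (MvPolynomial (Fin (n + 1)) ℤ) (AdjoinRoot P) := inferInstance
  have hft : Algebra.FiniteType ℤ (AdjoinRoot P) := inferInstance
  have hft' := Pool.Agent.R410.LW.ft_int _ hft
  obtain ⟨L, iL, nL, h⟩ := Pool.Agent.K3h55.HP.landau_int (B := AdjoinRoot P) hinj
  obtain ⟨t, ht, -, C, hC⟩ := h 1 one_ne_zero
  refine ⟨L, iL, nL, t, C, ht, fun p hp hCp => ?_⟩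
  have h1 := hC p hp hCp
  have h2 : Nat.card {φ : AdjoinRoot P →+* ZMod p //
      φ (algebraMap (MvPolynomial (Fin (n + 1)) ℤ) (AdjoinRoot P) t) ≠ 0} = (Pts P t p).ncard := by
    rw [← Nat.card_coe_set_eq]
    exact Nat.card_congr (ptsEquiv P t p)
  rwa [h2] at h1

end Pool.Agent.K3h34.HP
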